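import Pool.Agent.Helper66.TU.Asm

/-!
# MP_ed3816_nt : every number field containing `i`, almost all places

`X` is the smooth projective model `s² g(y) = t² g(x)`, `g(a, b) = a b (a² - b²)`, of the Kummer
surface of `E × E`, `E : y² = x³ - x` (`KumK3.X`). For every number field `L` containing a square
root of `-1`, the `L`-points of `X` are dense in `X(L_v)` for all but finitely many places `v`.

Proof idea. A point of `X` over `L` with `z ≠ 0` is an element `d` of `Lˣ` modulo squares and a pair
`(P, Q)` of points of the twist `E_d` up to a common sign. The closure of the set of `L`-points is
stable under the integral `2 × 2` matrices over `ℤ[i]`, under translation by the fixed 2-torsion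
point and under a birational involution which changes the twist, and it contains all pairs `(P, 0)`
(images of the diagonal, by weak approximation for `L`). Modulo the points near zero the group
`E_d(L_v)` is a cyclic `ℤ[i]`-module, so all residue classes of pairs are reached by matrices. When
a shear `(1 b; 0 1)` is conjugated by the involution, a pair `(P, Q)` with `Q` near zero is moved
by `(3 x(P) - 1) / 2 * b * Q` in the first coordinate, to the first order. The values `3 x(P) - 1`
at the generators of the residue group span the residue field over `ℤ[i]` when the residue
characteristic is large, by a count of the generators. So all small displacements are reached.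
-/

namespace Pool.Agent.Results.MP_ed3816_nt.AlmostAllPlaces

open NumberField IsDedekindDomain KumK3

/-- For every number field `L` containing a square root of `-1`, the set of the finite places `v`
of `L` such that `X(L)` is not dense in `X(L_v)` is finite. -/
theorem result (L : Type) [Field L] [NumberField L] (i : L) (hi : i ^ 2 = -1) :
    {v : HeightOneSpectrum (𝓞 L) |
      ¬ DenseRange (X.map (algebraMap L (v.adicCompletion L)))}.Finite :=
  final_TU L i hi

end Pool.Agent.Results.MP_ed3816_nt.AlmostAllPlaces
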