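import Pool.Agent.Helper1.FT.Fin

/-!
# Weak approximation at many places on the Kummer surfaces of `E × E`, `E` with full two-torsion

Let `L` be a field of characteristic `0` (for example a number field), `A`, `B` in `L` with
`A ≠ 0`, `B ≠ 0`, `A ≠ B`, and `E : y^2 = x (x - A) (x - B)`. The surface
`z^2 = f(x) f(y)`, `f(t) = t (t - A) (t - B)`, `z ≠ 0`, is an open subset of the Kummer surface of
`E × E`.

Proof idea. A point of the surface over a field is an element `d` up to squares and a pair `(P, Q)`
of points, up to a common sign, of the quadratic twist `E_d`. So the group of integral `2 x 2`
matrices and the translations by the sixteen pairs of two-torsion points act on the closure of the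
set of `L`-points. A birational involution of the surface, which preserves the pencil of lines
through the node `(A, B)`, changes the twist. The diagonal `x = y` gives, by weak approximation
for `L`, a first family of points. The places are added one by one, in increasing order of the
primes (so the new prime does not divide the exponents of the groups of the former places): first
all data near the sixteen nodes are reached at the new place, with arbitrary data at the former
places, by induction applied to a derived statement which is again stable under all the moves; then
all data. The real place is present from the beginning: the closure statement is made for all real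
data at once.
-/

namespace Pool.Agent.Results.MP_ed3816_nt.FullTwoTorsion

open Pool.Agent.Helper1.FT Classical

/-- Let `L` be a field of characteristic zero, `A`, `B` distinct non-zero elements of `L` and `X`
the surface `z^2 = f(x) f(y)`, `z ≠ 0`, `f(t) = t (t - A) (t - B)`. Let `q i` be distinct primes
and `φ i : L → ℚ_[q i]` homomorphisms such that `Good` holds for the images of `A` and `B`, and
let `ψ r : L → ℝ` be at most one homomorphism. Then the `L`-points of `X` are dense in the product
of the real points and of the `q i`-adic points, for all `i` at once. -/
theorem result {L : Type*} [Field L] [CharZero L] {A B : L} (hA : A ≠ 0) (hB : B ≠ 0)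
    (hAB : A ≠ B) {ι : Type} {q : ι → ℕ} [∀ i, Fact (q i).Prime] (hq : Function.Injective q)
    {φ : ∀ i, L →+* ℚ_[q i]} (hG : ∀ i, Good (q i) (φ i A) (φ i B))
    {R : Type} [Subsingleton R] {ψ : R → L →+* ℝ} :
    DenseRange (fun u : Pt A B => ((fun r => Pt.map (ψ r) u, fun i => Pt.map (φ i) u) :
      (∀ r, Pt (ψ r A) (ψ r B)) × ∀ i, Pt (φ i A) (φ i B))) :=
  dense_all ⟨two_ne_zero, hA, hB, hAB⟩ hG hq

end Pool.Agent.Results.MP_ed3816_nt.FullTwoTorsion
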