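import Pool.Agent.Helper9.K3.Final
import Pool.Agent.Helper9.GWA.Tame
import Pool.Agent.Helper9.GWA.Tame2
import Pool.Agent.Helper9.GWA.Trans
import Pool.Agent.Helper10.GWA.Inf3

/-!
# MP_ed3816_nt : weak approximation for the Kummer K3 surface of `E × E`, `E : y² = x³ - x`, over
the Gaussian field
-/

namespace Pool.Agent.Results.MP_ed3816_nt.FullWeakApproximation

open NumberField IsDedekindDomain KumK3

/-- Weak approximation: `X(K)` is dense in the product of the `X(K_v)` over all places `v` (finite
and infinite) of `K = ℚ(i)`. -/
theorem result (K : Type) [Field K] [NumberField K] (i : K) (hi : i ^ 2 = -1)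
    (hK : Module.finrank ℚ K = 2) :
    DenseRange (fun p : X K =>
      ((fun v : HeightOneSpectrum (𝓞 K) => X.map (algebraMap K (v.adicCompletion K)) p),
        (fun w : InfinitePlace K => X.map (algebraMap K w.Completion) p))) := by
  apply dense_X
  apply GWA.final_of_local K i hi hK
  · intro L _ _ _ _ π h hodd
    exact h.tameAx_of_trans hodd (fun A hA hNN => h.trans_tame hodd hA hNN)
  · intro L _ _ _ _ h
    exact h.lamAx
  · intro _
    exact @GWA.infAx GaussianInt.toComplex.toAlgebra _

end Pool.Agent.Results.MP_ed3816_nt.FullWeakApproximation
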