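import Pool.Agent.Helper10.K3R.Real2

/-!
# Weak approximation on a Kummer surface over `ℚ` at the real place and all primes `p = 5 mod 8`

Let `E : y^2 = x^3 + 4 x^2 + 2 x` and let `X` be the Kummer surface of `E × E`. The surface
`z^2 = f(x) f(y)`, `f(t) = t^3 + 4 t^2 + 2 t`, `z ≠ 0`, is a dense open subset of `X`.

Proof idea. A rational point of the surface is a rational number `d` up to squares and a pair
`(P, Q)` of rational points, up to a common sign, of the quadratic twist `E_d`. So the group of
integral `2 x 2` matrices and the translations by the rational point of order two act on the
closure of the set of rational points. A birational involution of the surface which preserves the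
ratio `x : y` changes the twist. The diagonal `x = y` gives, by weak approximation for `ℚ`, a first
family of points. The primes are added one by one, in increasing order (so the new prime does not
divide the exponents of the groups of the former ones): first all data near the four nodes
`P, Q ∈ {0, T}` are reached at the new prime, with arbitrary data at the former primes, by
induction applied to a derived statement which is again stable under all the moves; then all data.
The real place is added at the end: multiples by integers divisible by all the former exponents
of a real point of infinite order are dense in the identity component, and a pair of real points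
exchanged by the involution links the two components.
-/

namespace Pool.Agent.Results.MP_ed3816_nt.RealAndFiveModEight

open KumWA

/-- The rational points of the surface `z^2 = f(x) f(y)`, `z ≠ 0`, `f(t) = t^3 + 4 t^2 + 2 t`, are
dense in the product of the space of real points and of the spaces of `p`-adic points for all the
primes `p = 5 mod 8`. -/
theorem result :
    DenseRange (fun u : Pt ℚ => ((Pt.map (Rat.castHom ℝ) u,
      fun p : {p : Nat.Primes // (p : ℕ) % 8 = 5} =>
        Pt.map (Rat.castHom ℚ_[((p : Nat.Primes) : ℕ)]) u) :
      Pt ℝ × ∀ p : {p : Nat.Primes // (p : ℕ) % 8 = 5}, Pt ℚ_[((p : Nat.Primes) : ℕ)])) :=
  dense_real_P5

end Pool.Agent.Results.MP_ed3816_nt.RealAndFiveModEight
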